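import Pool.Agent.U857.GS.Main

/-!
# The weights of GSpin and the Weyl group
-/

set_option autoImplicit false

namespace Pool.Agent.U857.GS

open Finset

/-- the weights `(k₀; k₁, …, k_n)` -/
abbrev Wt (n : ℕ) : Type := ℤ × (Fin n → ℤ)

/-- the monomial -/
noncomputable def mval {n : ℕ} (α : ℂ × (Fin n → ℂ)) (k : Wt n) : ℂ :=
  α.1 ^ k.1 * ∏ i, α.2 i ^ k.2 i

/-- the reflection `k_i ↦ k₀ - k_i` -/
def rfl1 {n : ℕ} (i : Fin n) (k : Wt n) : Wt n := (k.1, Function.update k.2 i (k.1 - k.2 i))

/-- invariance under the Weyl group -/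
structure WInv {n : ℕ} (M : Multiset (Wt n)) : Prop where
  perm : ∀ σ : Equiv.Perm (Fin n), M.map (fun k => ((k.1, k.2 ∘ σ) : Wt n)) = M
  refl : ∀ i : Fin n, M.map (rfl1 i) = M

variable {n : ℕ}

theorem rfl1_invol (i : Fin n) : Function.Involutive (rfl1 i) := by
  intro k
  unfold rfl1
  ext j
  · rfl
  · by_cases h : j = i
    · subst h
      simp
    · simp [Function.update_of_ne h]

theorem rfl1_add (i : Fin n) (a b : Wt n) : rfl1 i (a + b) = rfl1 i a + rfl1 i b := by
  unfold rfl1
  ext j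
  · rfl
  · by_cases h : j = i
    · subst h
      simp
      ring
    · simp [Function.update_of_ne h]

/-- the weights of the spin representation -/
def cube (n : ℕ) : Set (Wt n) := {k | k.1 = 1 ∧ ∀ i, k.2 i = 0 ∨ k.2 i = 1}

/-- additive bijections preserving the cube -/
def HH (n : ℕ) : Subgroup (Equiv.Perm (Wt n)) where
  carrier := {f | (∀ a b, f (a + b) = f a + f b) ∧ ∀ k, f k ∈ cube n ↔ k ∈ cube n}
  mul_mem' := by
    rintro f g ⟨hf1, hf2⟩ ⟨hg1, hg2⟩
    refine ⟨fun a b => ?_, fun k => ?_⟩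
    · simp only [Equiv.Perm.mul_apply]
      rw [hg1, hf1]
    · simp only [Equiv.Perm.mul_apply]
      rw [hf2, hg2]
  one_mem' := ⟨fun _ _ => rfl, fun _ => Iff.rfl⟩
  inv_mem' := by
    rintro f ⟨hf1, hf2⟩
    refine ⟨fun a b => ?_, fun k => ?_⟩
    · apply f.injective
      rw [hf1]
      simp
    · rw [← hf2]
      simp

instance : DistribMulAction (HH n) (Wt n) where
  smul f a := f.1 a
  one_smul _ := rfl
  mul_smul _ _ _ := rfl
  smul_zero f := by
    have h := f.2.1 0 0
    rw [add_zero] at h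
    show f.1 0 = 0
    exact (left_eq_add.1 h)
  smul_add f a b := f.2.1 a b

theorem HH_smul (f : HH n) (a : Wt n) : f • a = f.1 a := rfl

theorem cube_finite (n : ℕ) : (cube n).Finite := by
  have h1 : (Set.range fun s : Fin n → Bool =>
      (((1 : ℤ), fun i => if s i then (1 : ℤ) else 0) : Wt n)).Finite := Set.finite_range _
  refine h1.subset ?_
  rintro ⟨k0, k⟩ ⟨hk0, hk⟩
  refine ⟨fun i => decide (k i = 1), ?_⟩
  ext i
  · exact hk0.symm
  · rcases hk i with h | h
    · simp only at h
      simp [h]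
    · simp only at h
      simp [h]

/-- the cube generates -/
theorem cube_gen {f g : HH n} (h : ∀ k ∈ cube n, f.1 k = g.1 k) : f = g := by
  apply Subtype.ext
  apply Equiv.ext
  intro k
  let K : AddSubgroup (Wt n) :=
    { carrier := {a | f.1 a = g.1 a}
      add_mem' := by
        intro a b ha hb
        have ha' : f.1 a = g.1 a := ha
        have hb' : f.1 b = g.1 b := hb
        show f.1 (a + b) = g.1 (a + b)
        rw [f.2.1, g.2.1, ha', hb']
      zero_mem' := by
        show f.1 0 = g.1 0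
        have h1 := smul_zero (A := Wt n) f
        have h2 := smul_zero (A := Wt n) g
        rw [HH_smul] at h1 h2
        rw [h1, h2]
      neg_mem' := by
        intro a ha
        have ha' : f.1 a = g.1 a := ha
        show f.1 (-a) = g.1 (-a)
        have h1 := smul_neg (A := Wt n) f a
        have h2 := smul_neg (A := Wt n) g a
        rw [HH_smul, HH_smul] at h1 h2
        rw [h1, h2, ha'] }
  have hc : ∀ k ∈ cube n, k ∈ K := fun k hk => h k hk
  have e0 : (((1 : ℤ), fun _ => (0 : ℤ)) : Wt n) ∈ K := hc _ ⟨rfl, fun i => Or.inl rfl⟩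
  have ei : ∀ i : Fin n, (((0 : ℤ), Pi.single i (1 : ℤ)) : Wt n) ∈ K := by
    intro i
    have h1 : (((1 : ℤ), Pi.single i (1 : ℤ)) : Wt n) ∈ K := by
      refine hc _ ⟨rfl, fun j => ?_⟩
      by_cases h : j = i
      · subst h
        simp
      · simp [Pi.single_eq_of_ne h]
    have h2 := K.sub_mem h1 e0
    have e : (((1 : ℤ), Pi.single i (1 : ℤ)) : Wt n) - ((1 : ℤ), fun _ => (0 : ℤ)) =
        ((0 : ℤ), Pi.single i (1 : ℤ)) := by
      ext j
      · simp
      · simp
    rwa [e] at h2
  have hk : k = k.1 • (((1 : ℤ), fun _ => (0 : ℤ)) : Wt n) +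
      ∑ i, k.2 i • (((0 : ℤ), Pi.single i (1 : ℤ)) : Wt n) := by
    ext j
    · simp [Prod.fst_sum]
    · simp [Prod.snd_sum, Finset.sum_apply, Pi.single_apply]
  have hkK : k ∈ K := by
    rw [hk]
    exact K.add_mem (K.zsmul_mem e0 _) (K.sum_mem fun i _ => K.zsmul_mem (ei i) _)
  exact hkK

instance : Finite (HH n) := by
  haveI : Finite (cube n) := (cube_finite n).to_subtype
  refine Finite.of_injective (fun f : HH n => fun k : cube n =>
    (⟨f.1 k.1, (f.2.2 k.1).2 k.2⟩ : cube n)) ?_
  intro f g hfg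
  refine cube_gen fun k hk => ?_
  have := congrFun hfg ⟨k, hk⟩
  exact congrArg Subtype.val this

noncomputable instance : Fintype (HH n) := Fintype.ofFinite _

/-- the reflections as elements of the group -/
def rr (i : Fin n) : HH n := ⟨(rfl1_invol i).toPerm _, by
  refine ⟨fun a b => rfl1_add i a b, fun k => ?_⟩
  have key : ∀ k : Wt n, k ∈ cube n → rfl1 i k ∈ cube n := by
    rintro ⟨k0, k⟩ ⟨h0, hk⟩
    simp only at h0 hk
    subst h0
    refine ⟨rfl, fun j => ?_⟩
    unfold rfl1
    by_cases h : j = i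
    · subst h
      simp only [Function.update_self]
      rcases hk j with h | h
      · right; rw [h]; rfl
      · left; rw [h]; rfl
    · simp only [Function.update_of_ne h]
      exact hk j
  refine ⟨fun h => ?_, key k⟩
  have := key _ h
  rwa [show (Function.Involutive.toPerm (rfl1 i) (rfl1_invol i)) k = rfl1 i k from rfl,
    rfl1_invol i k] at this⟩

/-- the permutations as elements of the group -/
def pp (σ : Equiv.Perm (Fin n)) : HH n := ⟨
  { toFun := fun k => (k.1, k.2 ∘ σ)
    invFun := fun k => (k.1, k.2 ∘ σ.symm)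
    left_inv := fun k => by
      ext j
      · rfl
      · simp
    right_inv := fun k => by
      ext j
      · rfl
      · simp }, by
  refine ⟨fun a b => rfl, fun k => ?_⟩
  constructor
  · rintro ⟨h0, h1⟩
    refine ⟨h0, fun i => ?_⟩
    have := h1 (σ.symm i)
    simpa using this
  · rintro ⟨h0, h1⟩
    exact ⟨h0, fun i => h1 (σ i)⟩⟩

theorem orb_map (g : HH n) (a : Wt n) : (orb (HH n) a).map (fun k => g • k) = orb (HH n) a := by
  unfold orb
  rw [Multiset.map_map]
  have h : ((fun k : Wt n => g • k) ∘ fun w : HH n => w • a) =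
      (fun w : HH n => w • a) ∘ (Equiv.mulLeft g) := by
    funext w
    simp [mul_smul]
  rw [h, ← Multiset.map_map, Multiset.map_univ_val_equiv]

theorem orb_inv (a : Wt n) : WInv (orb (HH n) a) :=
  ⟨fun σ => orb_map (pp σ) a, fun i => orb_map (rr i) a⟩

/-- the longest element -/
theorem w0_map {M : Multiset (Wt n)} (hM : WInv M) :
    M.map (fun k => ((k.1, fun i => k.1 - k.2 i) : Wt n)) = M := by
  classical
  have h : ∀ s : Finset (Fin n), M.map (fun k => ((k.1, fun i => if i ∈ s then k.1 - k.2 i else k.2 i) : Wt n)) = M := by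
    intro s
    induction s using Finset.induction with
    | empty => simp
    | insert i s hi ih =>
      have e : (fun k : Wt n => ((k.1, fun j => if j ∈ insert i s then k.1 - k.2 j else k.2 j) : Wt n)) =
          rfl1 i ∘ fun k => ((k.1, fun j => if j ∈ s then k.1 - k.2 j else k.2 j) : Wt n) := by
        funext k
        unfold rfl1
        ext j
        · rfl
        · by_cases h : j = i
          · subst h
            simp [hi]
          · simp [Function.update_of_ne h, h]
      rw [e, ← Multiset.map_map, ih, hM.refl i]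
  have h1 := h univ
  simpa using h1

theorem mval_w0 {α : ℂ × (Fin n → ℂ)} (h0 : α.1 ≠ 0) (h1 : ∀ i, α.2 i ≠ 0)
    (hω : α.1 ^ 2 * ∏ i, α.2 i = 1) (k : Wt n) :
    mval α (k.1, fun i => k.1 - k.2 i) = (mval α k)⁻¹ := by
  have h2 : mval α (k.1, fun i => k.1 - k.2 i) * mval α k = 1 := by
    unfold mval
    have e : ∀ i, α.2 i ^ (k.1 - k.2 i) * α.2 i ^ k.2 i = α.2 i ^ k.1 := by
      intro i
      rw [← zpow_add₀ (h1 i)]
      congr 1
      ring
    calc α.1 ^ k.1 * (∏ i, α.2 i ^ (k.1 - k.2 i)) * (α.1 ^ k.1 * ∏ i, α.2 i ^ k.2 i) =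
        (α.1 ^ k.1 * α.1 ^ k.1) * ∏ i, (α.2 i ^ (k.1 - k.2 i) * α.2 i ^ k.2 i) := by
          rw [prod_mul_distrib]
          ring
      _ = (α.1 ^ 2 * ∏ i, α.2 i) ^ k.1 := by
          rw [mul_zpow, Finset.prod_congr rfl fun i _ => e i, ← prod_zpow]
          congr 1
          rw [← mul_zpow]
          congr 1
          ring
      _ = 1 := by rw [hω, one_zpow]
  exact eq_inv_of_mul_eq_one_left h2

open Classical in
/-- the character of a point of the torus -/
noncomputable def toChar (α : ℂ × (Fin n → ℂ)) : AddChar (Wt n) ℂ :=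
  if h : α.1 ≠ 0 ∧ ∀ i, α.2 i ≠ 0 then
    { toFun := mval α
      map_zero_eq_one' := by simp [mval]
      map_add_eq_mul' := by
        intro a b
        unfold mval
        simp only [Prod.fst_add, Prod.snd_add, Pi.add_apply]
        rw [zpow_add₀ h.1]
        have e : ∀ i, α.2 i ^ (a.2 i + b.2 i) = α.2 i ^ a.2 i * α.2 i ^ b.2 i := fun i =>
          zpow_add₀ (h.2 i) _ _
        simp only [e, prod_mul_distrib]
        ring }
  else 1

theorem toChar_apply {α : ℂ × (Fin n → ℂ)} (h0 : α.1 ≠ 0) (h1 : ∀ i, α.2 i ≠ 0) (k : Wt n) :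
    toChar α k = mval α k := by
  unfold toChar
  rw [dif_pos ⟨h0, h1⟩]
  rfl

theorem exists_gen (n : ℕ) : ∃ (r : ℕ) (e : Fin r → Wt n), AddSubgroup.closure (Set.range e) = ⊤ := by
  have h : AddGroup.FG (Wt n) := Module.Finite.iff_addGroup_fg.1 inferInstance
  obtain ⟨s, hs⟩ := h.out
  refine ⟨s.card, fun i => (s.equivFin.symm i : Wt n), ?_⟩
  rw [← hs]
  congr 1
  ext x
  constructor
  · rintro ⟨i, rfl⟩
    exact (s.equivFin.symm i).2
  · intro hx
    exact ⟨s.equivFin ⟨x, hx⟩, by simp⟩

end Pool.Agent.U857.GS
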