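import Mathlib

/-!
# Characters of a lattice with a finite group of automorphisms
-/

set_option autoImplicit false

namespace Pool.Agent.U857.GS

open Finset

variable {Λ : Type} [AddCommGroup Λ]

variable {W : Type} [Group W] [DistribMulAction W Λ]

/-- the character `λ ↦ u (w λ)` -/
noncomputable def tw (w : W) (u : AddChar Λ ℂ) : AddChar Λ ℂ :=
  u.compAddMonoidHom (DistribSMul.toAddMonoidHom Λ w)

theorem tw_apply (w : W) (u : AddChar Λ ℂ) (a : Λ) : tw w u a = u (w • a) := rfl

theorem tw_one (u : AddChar Λ ℂ) : tw (1 : W) u = u := by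
  ext a
  rw [tw_apply, one_smul]

theorem char_ext {r : ℕ} {e : Fin r → Λ} (he : AddSubgroup.closure (Set.range e) = ⊤)
    {u v : AddChar Λ ℂ} (h : ∀ i, u (e i) = v (e i)) : u = v := by
  let K : AddSubgroup Λ :=
    { carrier := {a | u a = v a}
      add_mem' := by
        intro a b ha hb
        simp only [Set.mem_ofPred_eq] at ha hb ⊢
        rw [AddChar.map_add_eq_mul, AddChar.map_add_eq_mul, ha, hb]
      zero_mem' := by simp
      neg_mem' := by
        intro a ha
        simp only [Set.mem_ofPred_eq] at ha ⊢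
        rw [AddChar.map_neg_eq_inv, AddChar.map_neg_eq_inv, ha] }
  have h1 : AddSubgroup.closure (Set.range e) ≤ K := by
    rw [AddSubgroup.closure_le]
    rintro _ ⟨i, rfl⟩
    exact h i
  ext a
  have h2 : a ∈ K := h1 (by rw [he]; trivial)
  exact h2

open Classical in
/-- sums of at most `B` of the generators -/
noncomputable def FB {r : ℕ} (e : Fin r → Λ) : ℕ → Finset Λ
  | 0 => {0}
  | B + 1 => FB e B ∪ univ.biUnion fun i => (FB e B).image fun a => e i + a

theorem FB_mono {r : ℕ} (e : Fin r → Λ) {m n : ℕ} (h : m ≤ n) : FB e m ⊆ FB e n := by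
  classical
  induction n, h using Nat.le_induction with
  | base => exact subset_rfl
  | succ n _ ih =>
    refine ih.trans ?_
    rw [FB]
    exact subset_union_left

theorem exists_c {r : ℕ} (e : Fin r → Λ) (Q : List (Fin r × ℂ)) :
    ∃ c : Λ → ℂ, ∀ u : AddChar Λ ℂ,
      (Q.map fun x => u (e x.1) - x.2).prod = ∑ a ∈ FB e Q.length, c a * u a := by
  classical
  induction Q with
  | nil => exact ⟨fun _ => 1, fun u => by simp [FB]⟩
  | cons x Q ih =>
    obtain ⟨c, hc⟩ := ih
    set n := Q.length with hn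
    refine ⟨fun a => (if a - e x.1 ∈ FB e n then c (a - e x.1) else 0) -
      (if a ∈ FB e n then x.2 * c a else 0), fun u => ?_⟩
    rw [List.map_cons, List.prod_cons, hc u, List.length_cons, ← hn]
    simp only [sub_mul, sum_sub_distrib, ite_mul, zero_mul]
    congr 1
    · rw [mul_sum]
      have h1 : (FB e n).image (fun a => e x.1 + a) ⊆ FB e (n + 1) := by
        intro a ha
        rw [FB, mem_union]
        right
        exact mem_biUnion.2 ⟨x.1, mem_univ _, ha⟩
      rw [← sum_subset h1, sum_image]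
      · refine sum_congr rfl fun a ha => ?_
        rw [add_sub_cancel_left, if_pos ha, AddChar.map_add_eq_mul]
        ring
      · intro a _ b _ hab
        exact add_left_cancel hab
      · intro a _ ha
        rw [if_neg]
        intro h2
        apply ha
        exact mem_image.2 ⟨_, h2, by abel⟩
    · rw [mul_sum]
      rw [← sum_subset (FB_mono e (Nat.le_succ n))]
      · refine sum_congr rfl fun a ha => ?_
        rw [if_pos ha]
        ring
      · intro a _ ha
        rw [if_neg ha]

/-- the size of the list -/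
noncomputable def BW (W : Type) [Fintype W] (V : Finset (AddChar Λ ℂ)) : ℕ :=
  Fintype.card W * (V.card + 1)

/-- **Separation.** A character that is not separated from `V` by the orbit sums of the elements of
`FB e (BW W V)` is a transform of an element of `V`. -/
theorem sep {r : ℕ} {e : Fin r → Λ} (he : AddSubgroup.closure (Set.range e) = ⊤)
    [Fintype W] (V : Finset (AddChar Λ ℂ)) (t : AddChar Λ ℂ)
    (h : ∀ c : Λ → ℂ,
      (∀ v ∈ V, ∑ a ∈ FB e (BW W V), c a * ∑ w : W, v (w • a) = 0) →
      ∑ a ∈ FB e (BW W V), c a * ∑ w : W, t (w • a) = 0) :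
    ∃ v ∈ V, ∃ w : W, t = tw w v := by
  classical
  by_contra hcon
  push Not at hcon
  set Q : Finset (AddChar Λ ℂ) := ((V ×ˢ (univ : Finset W)).image (fun x => tw x.2 x.1) ∪
    (univ : Finset W).image (fun w : W => tw w t)).erase t with hQ
  have hQc : Q.card ≤ BW W V := by
    refine (card_erase_le).trans ((card_union_le _ _).trans ?_)
    refine (add_le_add card_image_le card_image_le).trans ?_
    rw [card_product, card_univ]
    unfold BW
    nlinarith
  have hne : ∀ q : Q, ∃ i, (q : AddChar Λ ℂ) (e i) ≠ t (e i) := by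
    intro q
    by_contra h1
    push Not at h1
    exact (mem_erase.1 q.2).1 (char_ext he h1)
  choose i hi using hne
  set Ls : List (Fin r × ℂ) := (Q.attach.toList).map fun q => (i q, (q : AddChar Λ ℂ) (e (i q))) with hLs
  have hlen : Ls.length = Q.card := by
    rw [hLs, List.length_map, length_toList, card_attach]
  obtain ⟨c, hc⟩ := exists_c e Ls
  rw [hlen] at hc
  set P : AddChar Λ ℂ → ℂ := fun u => (Ls.map fun x => u (e x.1) - x.2).prod with hP
  have hP0 : ∀ q ∈ Q, P q = 0 := by
    intro q hq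
    simp only [hP]
    rw [List.prod_eq_zero_iff]
    simp only [hLs, List.map_map, List.mem_map, mem_toList, mem_attach, true_and]
    exact ⟨⟨q, hq⟩, by simp⟩
  have hPt : P t ≠ 0 := by
    simp only [hP]
    rw [ne_eq, List.prod_eq_zero_iff]
    simp only [hLs, List.map_map, List.mem_map, mem_toList, mem_attach, true_and]
    rintro ⟨q, hq⟩
    simp only [Function.comp] at hq
    exact hi q (sub_eq_zero.1 hq).symm
  set c' : Λ → ℂ := fun a => if a ∈ FB e Q.card then c a else 0 with hc'
  have hsum : ∀ u : AddChar Λ ℂ, ∑ a ∈ FB e (BW W V), c' a * ∑ w : W, u (w • a) =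
      ∑ w : W, P (tw w u) := by
    intro u
    have h1 : ∀ w : W, P (tw w u) = ∑ a ∈ FB e (BW W V), c' a * u (w • a) := by
      intro w
      simp only [hP]
      rw [hc, ← sum_subset (FB_mono e hQc)]
      · refine sum_congr rfl fun a ha => ?_
        rw [hc', tw_apply]
        simp only [if_pos ha]
      · intro a _ ha
        simp only [hc', if_neg ha, zero_mul]
    rw [sum_congr rfl fun w _ => h1 w, sum_comm]
    refine sum_congr rfl fun a _ => ?_
    rw [mul_sum]
  have h2 := h c' fun v hv => by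
    rw [hsum]
    refine sum_eq_zero fun w _ => hP0 _ ?_
    rw [hQ, mem_erase, mem_union]
    exact ⟨(hcon v hv w).symm, Or.inl (mem_image.2 ⟨(v, w), mem_product.2 ⟨hv, mem_univ _⟩, rfl⟩)⟩
  rw [hsum] at h2
  have h3 : ∀ w : W, P (tw w t) = if tw w t = t then P t else 0 := by
    intro w
    split_ifs with h4
    · rw [h4]
    · refine hP0 _ ?_
      rw [hQ, mem_erase, mem_union]
      exact ⟨h4, Or.inr (mem_image.2 ⟨w, mem_univ _, rfl⟩)⟩
  rw [sum_congr rfl fun w _ => h3 w, ← sum_filter, sum_const, nsmul_eq_mul, mul_eq_zero] at h2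
  rcases h2 with h2 | h2
  · have h4 : (univ.filter fun w : W => tw w t = t).card = 0 := by exact_mod_cast h2
    rw [card_eq_zero] at h4
    have h5 : (1 : W) ∈ univ.filter fun w : W => tw w t = t := by
      rw [mem_filter]
      exact ⟨mem_univ _, tw_one t⟩
    rw [h4] at h5
    simp at h5
  · exact hPt h2

/-- powers in a finite set -/
theorem tors {G : Type} [Group G] (Q : Finset G) (t : G) (h : ∀ k : ℕ, t ^ (k + 1) ∈ Q) :
    t ^ (Q.card).factorial = 1 := by
  classical
  have h1 : ∃ i ∈ range (Q.card + 1), ∃ j ∈ range (Q.card + 1), i ≠ j ∧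
      (fun k => t ^ (k + 1)) i = (fun k => t ^ (k + 1)) j :=
    exists_ne_map_eq_of_card_lt_of_maps_to (by rw [card_range]; omega) fun k _ => h k
  obtain ⟨i, hi, j, hj, hij, heq⟩ := h1
  rw [mem_range] at hi hj
  simp only at heq
  wlog hlt : i < j generalizing i j
  · exact this j hj i hi hij.symm heq.symm (by omega)
  have h2 : t ^ (j - i) = 1 := by
    have h3 : t ^ (j + 1) = t ^ (i + 1) * t ^ (j - i) := by
      rw [← pow_add]
      congr 1
      omega
    rw [h3] at heq
    exact (mul_eq_left.1 heq.symm)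
  have h3 : (j - i) ∣ (Q.card).factorial := Nat.dvd_factorial (by omega) (by omega)
  obtain ⟨m, hm⟩ := h3
  rw [hm, pow_mul, h2, one_pow]

/-- the trace of a multiset of weights -/
noncomputable def tr (M : Multiset Λ) (u : AddChar Λ ℂ) : ℂ := (M.map u).sum

theorem tr_add (M M' : Multiset Λ) (u : AddChar Λ ℂ) : tr (M + M') u = tr M u + tr M' u := by
  unfold tr
  rw [Multiset.map_add, Multiset.sum_add]

theorem tr_sum (A : Multiset (Multiset Λ)) (u : AddChar Λ ℂ) :
    tr A.sum u = (A.map fun r => tr r u).sum := by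
  induction A using Multiset.induction with
  | empty => simp [tr]
  | cons r A ih => rw [Multiset.sum_cons, tr_add, ih, Multiset.map_cons, Multiset.sum_cons]

/-- finitely many traces generate all traces on a finite set of torsion characters -/
theorem integ (U : Finset (AddChar Λ ℂ)) {n : ℕ} (hn : 0 < n) (hU : ∀ u ∈ U, u ^ n = 1)
    (R : Set (Multiset Λ)) : ∃ R₀ : Finset (Multiset Λ), (∀ r ∈ R₀, r ∈ R) ∧
      ∀ r ∈ R, ∃ c : Multiset Λ → ℤ, ∀ u ∈ U, tr r u = ∑ j ∈ R₀, (c j : ℂ) * tr j u := by
  classical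
  set s : Set ℂ := {z | z ^ n = 1} with hs
  have hsf : s.Finite := by
    have h1 : s = ((Polynomial.nthRoots n (1 : ℂ)).toFinset : Set ℂ) := by
      ext z
      simp [hs, Polynomial.mem_nthRoots hn]
    rw [h1]
    exact Finset.finite_toSet _
  have hsi : ∀ x ∈ s, IsIntegral ℤ x := by
    intro x hx
    refine ⟨Polynomial.X ^ n - 1, Polynomial.monic_X_pow_sub_C 1 hn.ne', ?_⟩
    have hx' : x ^ n = 1 := hx
    simp [hx']
  have hfg : (Subalgebra.toSubmodule (Algebra.adjoin ℤ s)).FG :=
    fg_adjoin_of_finite hsf hsi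
  set Φ : Multiset Λ → (U → ℂ) := fun M u => tr M u with hΦ
  have hle : Submodule.span ℤ (Φ '' R) ≤
      Submodule.pi Set.univ fun _ : U => Subalgebra.toSubmodule (Algebra.adjoin ℤ s) := by
    rw [Submodule.span_le]
    rintro _ ⟨M, -, rfl⟩
    rw [SetLike.mem_coe, Submodule.mem_pi]
    intro u _
    simp only [hΦ, tr]
    refine multiset_sum_mem _ fun x hx => ?_
    rw [Multiset.mem_map] at hx
    obtain ⟨a, -, rfl⟩ := hx
    refine Algebra.subset_adjoin ?_
    show ((u : AddChar Λ ℂ) a) ^ n = 1
    rw [← AddChar.pow_apply, hU u u.2, AddChar.one_apply]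
  have hfg2 : (Submodule.pi Set.univ fun _ : U =>
      Subalgebra.toSubmodule (Algebra.adjoin ℤ s)).FG := Submodule.fg_pi fun _ => hfg
  have hN : IsNoetherian ℤ (Submodule.pi Set.univ fun _ : U =>
      Subalgebra.toSubmodule (Algebra.adjoin ℤ s) : Submodule ℤ (U → ℂ)) :=
    isNoetherian_of_fg_of_noetherian _ hfg2
  have h3 : (Submodule.span ℤ (Φ '' R)).FG := isNoetherian_submodule.1 hN _ hle
  rw [Submodule.fg_span_iff_fg_span_finset_subset] at h3
  obtain ⟨s', hs', hspan⟩ := h3
  obtain ⟨R₀, hR₀, hR₀'⟩ := Finset.subset_set_image_iff.1 hs'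
  refine ⟨R₀, fun r hr => hR₀ hr, fun r hr => ?_⟩
  have h4 : Φ r ∈ Submodule.span ℤ (Φ '' (R₀ : Set (Multiset Λ))) := by
    have h5 : Φ r ∈ Submodule.span ℤ (Φ '' R) := Submodule.subset_span ⟨r, hr, rfl⟩
    rw [hspan, ← hR₀', coe_image] at h5
    exact h5
  rw [Submodule.mem_span_image_finset_iff_exists_fun'] at h4
  obtain ⟨c, hc⟩ := h4
  refine ⟨c, fun u hu => ?_⟩
  have h5 := congrFun hc ⟨u, hu⟩
  simp only [Finset.sum_apply, Pi.smul_apply, zsmul_eq_mul, hΦ] at h5
  exact h5.symm

end Pool.Agent.U857.GS
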