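import Pool.Agent.U857.GS.Alg
import Pool.Agent.N845.SP.Main

/-!
# L-functions of multisets of weights
-/

set_option autoImplicit false

namespace Pool.Agent.U857.GS

open Finset Filter Topology Complex Pool.Agent.N210.FV Pool.Agent.N210.FW Pool.Agent.N845.SP

variable {Λ : Type} [AddCommGroup Λ]

/-- `N/D` is a continuation of the Euler product -/
structure Cont (S : Finset ℕ) (A : ℕ → Λ → ℂ) (M : Multiset Λ) (N D : ℂ → ℂ) : Prop where
  diffN : Differentiable ℂ N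
  diffD : Differentiable ℂ D
  order : ∃ C : ℝ, ∀ s, ‖N s‖ ≤ Real.exp (C * (1 + ‖s‖) ^ (3 / 2 : ℝ)) ∧
    ‖D s‖ ≤ Real.exp (C * (1 + ‖s‖) ^ (3 / 2 : ℝ))
  ne : ∀ s : ℂ, 1 < s.re → D s ≠ 0
  euler : ∀ s : ℂ, 1 < s.re → Tendsto (fun X : ℕ =>
    ∏ p ∈ (Finset.range X).filter (fun p => p.Prime ∧ p ∉ S),
      (M.map fun k => (1 - A p k * (p : ℂ) ^ (-s))⁻¹).prod) atTop (𝓝 (N s / D s))

/-- the functional equation `s ↔ 1 - s` -/
def Func (S : Finset ℕ) (N D : ℂ → ℂ) : Prop :=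
  ∃ (μ : List ℂ) (l l' : List (ℕ × ℂ)) (q : ℝ) (ε : ℂ), 0 < q ∧ ε ≠ 0 ∧
    (∀ x ∈ l, x.1.Prime ∧ x.1 ∈ S) ∧ (∀ x ∈ l', x.1.Prime ∧ x.1 ∈ S) ∧
    ∀ s, (q : ℂ) ^ s * gi μ (1 - s) * ef l (1 - s) * ef l' s * (N s * D (1 - s)) =
      ε * (q : ℂ) ^ (1 - s) * gi μ s * ef l s * ef l' (1 - s) * (N (1 - s) * D s)

theorem prod_getD {β : Type} [CommMonoid β] (l : List Λ) (f : Λ → β) :
    ∏ i ∈ range l.length, f (l.getD i 0) = (l.map f).prod := by
  induction l with
  | nil => simp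
  | cons a l ih =>
    rw [List.length_cons, prod_range_succ', List.map_cons, List.prod_cons, mul_comm]
    simp only [List.getD_cons_zero, List.getD_cons_succ, ih]

theorem sum_getD {β : Type} [AddCommMonoid β] (l : List Λ) (f : Λ → β) :
    ∑ i ∈ range l.length, f (l.getD i 0) = (l.map f).sum := by
  induction l with
  | nil => simp
  | cons a l ih =>
    rw [List.length_cons, sum_range_succ', List.map_cons, List.sum_cons, add_comm]
    simp only [List.getD_cons_zero, List.getD_cons_succ, ih]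

theorem prod_M {β : Type} [CommMonoid β] (M : Multiset Λ) (f : Λ → β) :
    ∏ i ∈ range M.toList.length, f (M.toList.getD i 0) = (M.map f).prod := by
  rw [prod_getD]
  conv_rhs => rw [← Multiset.coe_toList M]
  rw [Multiset.map_coe, Multiset.prod_coe]

theorem sum_M {β : Type} [AddCommMonoid β] (M : Multiset Λ) (f : Λ → β) :
    ∑ i ∈ range M.toList.length, f (M.toList.getD i 0) = (M.map f).sum := by
  rw [sum_getD]
  conv_rhs => rw [← Multiset.coe_toList M]
  rw [Multiset.map_coe, Multiset.sum_coe]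

theorem getD_mem (M : Multiset Λ) {i : ℕ} (hi : i < M.toList.length) : M.toList.getD i 0 ∈ M := by
  rw [List.getD_eq_getElem _ _ hi]
  exact Multiset.mem_toList.1 (List.getElem_mem hi)

/-- the parameters -/
noncomputable def be (A : ℕ → Λ → ℂ) (M : Multiset Λ) (p i : ℕ) : ℂ := A p (M.toList.getD i 0)

theorem Cont.toLG {S : Finset ℕ} {A : ℕ → Λ → ℂ} {M : Multiset Λ} {N D : ℂ → ℂ}
    (h : Cont S A M N D) (hf : Func S N D) :
    ∃ μ, LG S (range M.toList.length) (be A M) μ N D := by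
  obtain ⟨μ, l, l', q, ε, h1, h2, h3, h4, h5⟩ := hf
  refine ⟨μ, h.diffN, h.diffD, h.order, h.ne, fun s hs => ?_, l, l', q, ε, h1, h2, h3, h4, h5⟩
  refine (h.euler s hs).congr fun X => ?_
  refine prod_congr rfl fun p _ => ?_
  exact (prod_M M fun k => (1 - A p k * (p : ℂ) ^ (-s))⁻¹).symm

theorem ps_be (u : ℕ → AddChar Λ ℂ) (M : Multiset Λ) (p k : ℕ) :
    ps (range M.toList.length) (be (fun p => u p) M) p k = tr M (u p ^ k) := by
  unfold ps be tr
  rw [← sum_M]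
  refine sum_congr rfl fun i _ => ?_
  rw [AddChar.pow_apply]

/-- real relations between the traces pass to the powers -/
theorem rel {V : Finset (AddChar Λ ℂ)} {L : Finset (Multiset Λ)} {S T : Finset ℕ}
    {u : ℕ → AddChar Λ ℂ} (hV : ∀ p : ℕ, p.Prime → p ∉ T → u p ∈ V)
    (hsd : ∀ p : ℕ, p.Prime → p ∉ S → ∀ r ∈ L, r.map (u p) = r.map fun k => (u p k)⁻¹)
    (hL : ∀ r ∈ L, ∃ N D, Cont S (fun p => u p) r N D ∧ Func S N D)
    (c : Multiset Λ → ℝ) (hc : ∀ v ∈ V, ∑ r ∈ L, (c r : ℂ) * tr r v = 0)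
    {p : ℕ} (hp : p.Prime) (hpS : p ∉ S) (n : ℕ) :
    ∑ r ∈ L, (c r : ℂ) * tr r (u p ^ (n + 1)) = 0 := by
  classical
  rcases L.eq_empty_or_nonempty with rfl | hne
  · simp
  haveI : Nonempty {r // r ∈ L} := ⟨⟨hne.choose, hne.choose_spec⟩⟩
  have hL' : ∀ r : {r // r ∈ L}, ∃ N D μ, LG S (range r.1.toList.length) (be (fun p => u p) r.1) μ N D := by
    intro r
    obtain ⟨N, D, h1, h2⟩ := hL r.1 r.2
    obtain ⟨μ, h3⟩ := h1.toLG h2
    exact ⟨N, D, μ, h3⟩
  choose N D μ hLG using hL'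
  set ρ : ℝ := 1 + ∑ r ∈ L, ∑ v ∈ V, (r.map fun k => ‖v k‖).sum with hρ
  have hnn : ∀ (r : Multiset Λ) (v : AddChar Λ ℂ), 0 ≤ (r.map fun k => ‖v k‖).sum := by
    intro r v
    refine Multiset.sum_nonneg fun x hx => ?_
    rw [Multiset.mem_map] at hx
    obtain ⟨k, -, rfl⟩ := hx
    exact norm_nonneg _
  have hρ1 : 1 ≤ ρ := by
    have : 0 ≤ ∑ r ∈ L, ∑ v ∈ V, (r.map fun k => ‖v k‖).sum :=
      sum_nonneg fun r _ => sum_nonneg fun v _ => hnn r v
    linarith
  have hbd : ∀ r ∈ L, ∀ v ∈ V, ∀ k ∈ r, ‖v k‖ ≤ ρ := by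
    intro r hr v hv k hk
    have h1 : ‖v k‖ ≤ (r.map fun k => ‖v k‖).sum :=
      Multiset.single_le_sum (fun x hx => by
        rw [Multiset.mem_map] at hx
        obtain ⟨k, -, rfl⟩ := hx
        exact norm_nonneg _) _ (Multiset.mem_map_of_mem _ hk)
    have h2 : (r.map fun k => ‖v k‖).sum ≤ ∑ v ∈ V, (r.map fun k => ‖v k‖).sum :=
      single_le_sum (f := fun v : AddChar Λ ℂ => (r.map fun k => ‖v k‖).sum) (fun v _ => hnn r v) hv
    have h3 : ∑ v ∈ V, (r.map fun k => ‖v k‖).sum ≤ ∑ r ∈ L, ∑ v ∈ V, (r.map fun k => ‖v k‖).sum :=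
      single_le_sum (f := fun r : Multiset Λ => ∑ v ∈ V, (r.map fun k => ‖v k‖).sum)
        (fun r _ => sum_nonneg fun v _ => hnn r v) hr
    linarith
  obtain ⟨B, hB⟩ := exists_nat_ge (4 * ρ ^ 2)
  set S₁ : Finset ℕ := S ∪ T ∪ range B with hS₁
  have hSS : S ⊆ S₁ := fun p hp => mem_union_left _ (mem_union_left _ hp)
  have hVp : ∀ p : PS S₁, u p ∈ V := fun p => hV p p.2.1 fun h =>
    p.2.2 (mem_union_left _ (mem_union_right _ h))
  have hpB : ∀ p : PS S₁, 4 * ρ ^ 2 ≤ (p : ℕ) := by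
    intro p
    refine hB.trans ?_
    by_contra h1
    push Not at h1
    exact p.2.2 (mem_union_right _ (mem_range.2 (by exact_mod_cast h1)))
  set M : ℝ := ∑ r ∈ L, (r.toList.length : ℝ) with hM
  have hb : ∀ j : {r // r ∈ L}, Bnd S₁ (ps (range j.1.toList.length) (be (fun p => u p) j.1)) M ρ := by
    intro j
    refine ⟨sum_nonneg fun r _ => Nat.cast_nonneg _, hρ1, fun p k => ?_, hpB⟩
    unfold ps
    refine (norm_sum_le _ _).trans ?_
    have h1 : ∀ i ∈ range j.1.toList.length, ‖be (fun p => u p) j.1 p i ^ k‖ ≤ ρ ^ k := by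
      intro i hi
      rw [norm_pow]
      exact pow_le_pow_left₀ (norm_nonneg _)
        (hbd j.1 j.2 _ (hVp p) _ (getD_mem _ (mem_range.1 hi))) k
    refine (sum_le_sum h1).trans ?_
    rw [sum_const, card_range, nsmul_eq_mul]
    refine mul_le_mul_of_nonneg_right ?_ (by positivity)
    exact single_le_sum (f := fun r : Multiset Λ => (r.toList.length : ℝ))
      (fun r _ => Nat.cast_nonneg _) j.2
  have hβ : ∀ j : {r // r ∈ L}, ∀ p : PS S₁, ∀ i ∈ range j.1.toList.length,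
      ‖be (fun p => u p) j.1 p i‖ ≤ ρ := fun j p i hi =>
    hbd j.1 j.2 _ (hVp p) _ (getD_mem _ (mem_range.1 hi))
  have hrel : ∀ p : PS S₁, ∑ j : {r // r ∈ L}, (c j.1 : ℂ) *
      ps (range j.1.toList.length) (be (fun p => u p) j.1) p 1 = 0 := by
    intro p
    simp only [ps_be, pow_one]
    rw [sum_coe_sort L fun r => (c r : ℂ) * tr r (u p)]
    exact hc _ (hVp p)
  have hsym : ∀ j : {r // r ∈ L}, ∀ p : ℕ, p.Prime → p ∉ S → ∀ x : ℂ, x ≠ 0 →
      (open Classical in ∑ i ∈ range j.1.toList.length,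
        if be (fun p => u p) j.1 p i = x then (1 : ℝ) else 0) =
      (open Classical in ∑ i ∈ range j.1.toList.length,
        if be (fun p => u p) j.1 p i = x⁻¹ then (1 : ℝ) else 0) := by
    intro j p hp hpS x hx
    have h1 := sum_M j.1 fun k => if u p k = x then (1 : ℝ) else 0
    have h2 := sum_M j.1 fun k => if u p k = x⁻¹ then (1 : ℝ) else 0
    unfold be
    rw [h1, h2]
    have h3 := congrArg (fun s : Multiset ℂ => (s.map fun z => if z = x⁻¹ then (1 : ℝ) else 0).sum)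
      (hsd p hp hpS j.1 j.2)
    simp only [Multiset.map_map, Function.comp_def, inv_inj] at h3
    exact h3.symm
  have h := (rel_all (c := fun j : {r // r ∈ L} => c j.1) hLG hSS hb hβ hrel hsym).1 p hp hpS n
  simp only [ps_be] at h
  rw [sum_coe_sort L fun r => (c r : ℂ) * tr r (u p ^ (n + 1))] at h
  exact h

/-! ### logarithms -/

/-- the logarithm of the inverse Euler factor -/
noncomputable def EM (u : ℕ → AddChar Λ ℂ) (M : Multiset Λ) (p : ℕ) (s : ℂ) : ℂ :=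
  (M.map fun k => log (1 - u p k * (p : ℂ) ^ (-s))).sum

theorem lt_one {u : ℕ → AddChar Λ ℂ} {p : ℕ} (hp : p.Prime) (h : ∀ k, ‖u p k‖ = 1) (k : Λ) {s : ℂ}
    (hs : 1 < s.re) : ‖u p k * (p : ℂ) ^ (-s)‖ < 1 := by
  rw [norm_mul, h, one_mul, pz_norm hp]
  exact Real.rpow_lt_one_of_one_lt_of_neg (by exact_mod_cast hp.one_lt) (by linarith)

theorem exp_EM {u : ℕ → AddChar Λ ℂ} {p : ℕ} (hp : p.Prime) (h : ∀ k, ‖u p k‖ = 1) (M : Multiset Λ)
    {s : ℂ} (hs : 1 < s.re) :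
    exp (-(EM u M p s)) = (M.map fun k => (1 - u p k * (p : ℂ) ^ (-s))⁻¹).prod := by
  unfold EM
  induction M using Multiset.induction with
  | empty => simp
  | cons k M ih =>
    rw [Multiset.map_cons, Multiset.sum_cons, neg_add, exp_add, ih, Multiset.map_cons,
      Multiset.prod_cons, exp_neg, exp_log (fac_ne (lt_one hp h k hs))]

theorem EM_hasSum {u : ℕ → AddChar Λ ℂ} {p : ℕ} (hp : p.Prime) (h : ∀ k, ‖u p k‖ = 1)
    (M : Multiset Λ) {s : ℂ} (hs : 1 < s.re) :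
    HasSum (fun n : ℕ => tr M (u p ^ n) * ((p : ℂ) ^ (-s)) ^ n / n) (-(EM u M p s)) := by
  unfold EM
  induction M using Multiset.induction with
  | empty => simpa [tr] using (hasSum_zero : HasSum (fun _ : ℕ => (0 : ℂ)) 0)
  | cons k M ih =>
    have h1 := hasSum_taylorSeries_neg_log (lt_one hp h k hs)
    have h2 := h1.add ih
    rw [Multiset.map_cons, Multiset.sum_cons, neg_add]
    refine h2.congr_fun ?_
    intro n
    unfold tr
    rw [Multiset.map_cons, Multiset.sum_cons, AddChar.pow_apply]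
    ring

theorem EM_rel {u : ℕ → AddChar Λ ℂ} {p : ℕ} (hp : p.Prime) (h : ∀ k, ‖u p k‖ = 1)
    {M : Multiset Λ} {R₀ : Finset (Multiset Λ)} {c : Multiset Λ → ℤ}
    (hc : ∀ n : ℕ, tr M (u p ^ (n + 1)) = ∑ j ∈ R₀, (c j : ℂ) * tr j (u p ^ (n + 1))) {s : ℂ}
    (hs : 1 < s.re) : EM u M p s = ∑ j ∈ R₀, (c j : ℂ) * EM u j p s := by
  have h1 := EM_hasSum hp h M hs
  have h2 : HasSum (fun n : ℕ => ∑ j ∈ R₀, (c j : ℂ) *
      (tr j (u p ^ n) * ((p : ℂ) ^ (-s)) ^ n / n))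
      (∑ j ∈ R₀, (c j : ℂ) * (-(EM u j p s))) :=
    hasSum_sum fun j _ => (EM_hasSum hp h j hs).mul_left _
  have h3 : (fun n : ℕ => tr M (u p ^ n) * ((p : ℂ) ^ (-s)) ^ n / n) =
      fun n : ℕ => ∑ j ∈ R₀, (c j : ℂ) * (tr j (u p ^ n) * ((p : ℂ) ^ (-s)) ^ n / n) := by
    funext n
    rcases Nat.eq_zero_or_pos n with h0 | h0
    · subst h0
      simp
    · obtain ⟨m, rfl⟩ := Nat.exists_eq_add_of_le' h0
      rw [hc m, sum_mul, sum_div]
      refine sum_congr rfl fun j _ => ?_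
      ring
  rw [h3] at h1
  have h4 := h1.unique h2
  simp only [mul_neg, sum_neg_distrib] at h4
  exact neg_injective h4

/-- the Euler product does not vanish -/
theorem euler_nz {S : Finset ℕ} {u : ℕ → AddChar Λ ℂ} {M : Multiset Λ}
    (hα : ∀ p : ℕ, p.Prime → p ∉ S → ∀ k, ‖u p k‖ = 1)
    {s : ℂ} (hs : 1 < s.re) {L : ℂ} (h : Tendsto (fun X : ℕ =>
    ∏ p ∈ (Finset.range X).filter (fun p => p.Prime ∧ p ∉ S),
      (M.map fun k => (1 - u p k * (p : ℂ) ^ (-s))⁻¹).prod) atTop (𝓝 L)) : L ≠ 0 := by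
  have hsum : Summable fun n : ℕ => (n : ℝ) ^ (-s.re) := by
    have := Real.summable_nat_rpow (p := -s.re)
    rw [this]
    linarith
  set C : ℝ := ∑' n : ℕ, (n : ℝ) ^ (-s.re) with hC
  have h1 : ∀ X : ℕ, Real.exp (-(M.card * C)) ≤
      ‖∏ p ∈ (Finset.range X).filter (fun p => p.Prime ∧ p ∉ S),
        (M.map fun k => (1 - u p k * (p : ℂ) ^ (-s))⁻¹).prod‖ := by
    intro X
    have h2 : ∀ p ∈ (Finset.range X).filter (fun p => p.Prime ∧ p ∉ S),
        Real.exp (-(M.card * (p : ℝ) ^ (-s.re))) ≤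
          ‖(M.map fun k => (1 - u p k * (p : ℂ) ^ (-s))⁻¹).prod‖ := by
      intro p hp
      rw [Finset.mem_filter] at hp
      obtain ⟨-, hpp, hpS⟩ := hp
      have h3 : ∀ k, Real.exp (-(p : ℝ) ^ (-s.re)) ≤ ‖(1 - u p k * (p : ℂ) ^ (-s))⁻¹‖ := by
        intro k
        have h4 : ‖1 - u p k * (p : ℂ) ^ (-s)‖ ≤ Real.exp ((p : ℝ) ^ (-s.re)) := by
          refine (norm_sub_le _ _).trans ?_
          rw [norm_one, norm_mul, hα p hpp hpS, one_mul, pz_norm hpp]
          have := Real.add_one_le_exp ((p : ℝ) ^ (-s.re))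
          linarith
        have h5 : 0 < ‖1 - u p k * (p : ℂ) ^ (-s)‖ :=
          norm_pos_iff.2 (fac_ne (lt_one hpp (hα p hpp hpS) k hs))
        rw [norm_inv, Real.exp_neg]
        exact inv_anti₀ h5 h4
      clear hC h
      induction M using Multiset.induction with
      | empty => simp
      | cons k M ih =>
        rw [Multiset.map_cons, Multiset.prod_cons, norm_mul, Multiset.card_cons]
        have e : Real.exp (-(((M.card + 1 : ℕ) : ℝ) * (p : ℝ) ^ (-s.re))) =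
            Real.exp (-(p : ℝ) ^ (-s.re)) * Real.exp (-(M.card * (p : ℝ) ^ (-s.re))) := by
          rw [← Real.exp_add]
          congr 1
          push_cast
          ring
        rw [e]
        exact mul_le_mul (h3 k) ih (Real.exp_pos _).le (norm_nonneg _)
    rw [norm_prod]
    calc Real.exp (-(M.card * C)) ≤
        ∏ p ∈ (Finset.range X).filter (fun p => p.Prime ∧ p ∉ S),
          Real.exp (-(M.card * (p : ℝ) ^ (-s.re))) := by
          rw [← Real.exp_sum, Real.exp_le_exp, Finset.sum_neg_distrib, neg_le_neg_iff,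
            ← Finset.mul_sum]
          refine mul_le_mul_of_nonneg_left ?_ (by positivity)
          exact hsum.sum_le_tsum _ fun n _ => by positivity
      _ ≤ _ := Finset.prod_le_prod (fun _ _ => (Real.exp_pos _).le) h2
  have h2 := ge_of_tendsto' h.norm h1
  intro h0
  rw [h0, norm_zero] at h2
  exact absurd h2 (not_le.2 (Real.exp_pos _))

theorem Cont.toNice {S : Finset ℕ} {u : ℕ → AddChar Λ ℂ} {M : Multiset Λ} {N D : ℂ → ℂ}
    (h : Cont S (fun p => u p) M N D) (hα : ∀ p : ℕ, p.Prime → p ∉ S → ∀ k, ‖u p k‖ = 1) :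
    Nice False S (EM u M) 0 N D := by
  obtain ⟨C, hC⟩ := h.order
  refine ⟨h.diffN, h.diffD, ⟨max C 0, le_max_right _ _, fun s => ?_⟩, fun s hs h0 => ?_, h.ne,
    fun s hs => ?_, fun hP => hP.elim⟩
  · have h1 : Real.exp (C * (1 + ‖s‖) ^ (3 / 2 : ℝ)) ≤
        Real.exp (max C 0 * (1 + ‖s‖) ^ (3 / 2 : ℝ)) := by
      gcongr
      exact le_max_left _ _
    exact ⟨(hC s).1.trans h1, (hC s).2.trans h1⟩
  · apply euler_nz hα hs (h.euler s hs)
    rw [h0, zero_div]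
  · refine (h.euler s hs).congr fun X => ?_
    refine Finset.prod_congr rfl fun p hp => ?_
    rw [Finset.mem_filter] at hp
    rw [exp_EM hp.2.1 (hα p hp.2.1 hp.2.2) M hs]

theorem ofNice {S : Finset ℕ} {u : ℕ → AddChar Λ ℂ} {M : Multiset Λ} {N D : ℂ → ℂ} {g : ℤ × ℤ}
    (h : Nice False S (EM u M) g N D) (hα : ∀ p : ℕ, p.Prime → p ∉ S → ∀ k, ‖u p k‖ = 1) :
    Cont S (fun p => u p) M N D := by
  obtain ⟨C, -, hC⟩ := h.order
  refine ⟨h.diffN, h.diffD, ⟨C, hC⟩, h.neD, fun s hs => ?_⟩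
  refine (h.euler s hs).congr fun X => ?_
  refine Finset.prod_congr rfl fun p hp => ?_
  rw [Finset.mem_filter] at hp
  rw [exp_EM hp.2.1 (hα p hp.2.1 hp.2.2) M hs]

theorem nice_sum {S : Finset ℕ} {R₀ : Finset (Multiset Λ)} {E : Multiset Λ → ℕ → ℂ → ℂ}
    (h : ∀ j ∈ R₀, ∃ N D, Nice False S (E j) 0 N D) (c : Multiset Λ → ℤ) :
    ∃ N' D', Nice False S (fun p s => ∑ j ∈ R₀, (c j : ℂ) * E j p s) 0 N' D' := by
  classical
  induction R₀ using Finset.induction with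
  | empty =>
    refine ⟨fun _ => 1, fun _ => 1, ?_⟩
    have := Nice.one (P := False) (S := S)
    simpa using this
  | insert j R₀ hj ih =>
    obtain ⟨N1, D1, h1⟩ := ih fun j hj => h j (mem_insert_of_mem hj)
    obtain ⟨N0, D0, h0⟩ := h j (mem_insert_self _ _)
    obtain ⟨N2, D2, h2⟩ := h0.int (c j)
    refine ⟨fun s => N2 s * N1 s, fun s => D2 s * D1 s, ?_⟩
    have h3 := h2.mul h1
    simp only [sum_insert hj]
    exact h3.congr_g fun hF => hF.elim

end Pool.Agent.U857.GS
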