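import Pool.Agent.U857.GS.Eng

/-!
# A finite list of L-functions suffices
-/

set_option autoImplicit false

namespace Pool.Agent.U857.GS

open Finset Filter Topology Complex Pool.Agent.N210.FV Pool.Agent.N210.FW Pool.Agent.N845.SP

variable {Λ : Type} [AddCommGroup Λ]

/-- the complex conjugate character -/
noncomputable def cj (v : AddChar Λ ℂ) : AddChar Λ ℂ :=
  (starRingEnd ℂ).toMonoidHom.compAddChar v

theorem cj_apply (v : AddChar Λ ℂ) (a : Λ) : cj v a = (starRingEnd ℂ) (v a) := rfl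

/-- the orbit of a weight, with multiplicities -/
def orb (W : Type) [Group W] [Fintype W] [DistribMulAction W Λ] (a : Λ) : Multiset Λ :=
  (univ : Finset W).val.map fun w => w • a

theorem tr_orb {W : Type} [Group W] [Fintype W] [DistribMulAction W Λ] (a : Λ)
    (v : AddChar Λ ℂ) : tr (orb W a) v = ∑ w : W, v (w • a) := by
  unfold tr orb
  rw [Multiset.map_map]
  rfl

theorem sum_count {L : Finset (Multiset Λ)} {B : Multiset (Multiset Λ)} (hB : ∀ x ∈ B, x ∈ L)
    (f : Multiset Λ → ℂ) : (open Classical in ∑ x ∈ L, ((B.count x : ℕ) : ℂ) * f x) = (B.map f).sum := by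
  classical
  rw [Finset.sum_multiset_map_count]
  simp only [nsmul_eq_mul]
  symm
  refine sum_subset (fun x hx => hB x (Multiset.mem_toFinset.1 hx)) fun x _ hx => ?_
  rw [Multiset.mem_toFinset] at hx
  rw [Multiset.count_eq_zero.2 hx]
  simp

theorem main {r : ℕ} {e : Fin r → Λ} (he : AddSubgroup.closure (Set.range e) = ⊤)
    (W : Type) [Group W] [Fintype W] [DistribMulAction W Λ] (R : Set (Multiset Λ))
    (hR : ∀ a : Λ, ∃ A B : Multiset (Multiset Λ), (∀ x ∈ A, x ∈ R) ∧ (∀ x ∈ B, x ∈ R) ∧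
      orb W a + A.sum = B.sum) (V : Finset (AddChar Λ ℂ)) :
    ∃ (L : Finset (Multiset Λ)) (n : ℕ), 0 < n ∧ (∀ x ∈ L, x ∈ R) ∧
      ∀ (S T : Finset ℕ) (u : ℕ → AddChar Λ ℂ), (∀ p : ℕ, p.Prime → p ∉ T → u p ∈ V) →
        (∀ p : ℕ, p.Prime → p ∉ S → ∀ x ∈ R, x.map (u p) = x.map fun k => (u p k)⁻¹) →
        (∀ x ∈ L, ∃ N D, Cont S (fun p => u p) x N D ∧ Func S N D) →
        (∀ p : ℕ, p.Prime → p ∉ S → u p ^ n = 1) ∧
        ∀ (M : Multiset Λ) (A B : Multiset (Multiset Λ)), (∀ x ∈ A, x ∈ R) → (∀ x ∈ B, x ∈ R) →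
          M + A.sum = B.sum → ∃ N D, Cont S (fun p => u p) M N D := by
  classical
  set V' : Finset (AddChar Λ ℂ) := V ∪ V.image cj with hV'
  set F : Finset Λ := FB e (BW W V') with hF
  choose A B hA hB hAB using hR
  set Q : Finset (AddChar Λ ℂ) := (V' ×ˢ (univ : Finset W)).image fun x => tw x.2 x.1 with hQ
  set n : ℕ := (Q.card).factorial with hn
  have hn0 : 0 < n := Nat.factorial_pos _
  set U : Finset (AddChar Λ ℂ) := Q.filter fun u => u ^ n = 1 with hU
  obtain ⟨R₀, hR₀, hint⟩ := integ U hn0 (fun u hu => (mem_filter.1 hu).2) R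
  set L : Finset (Multiset Λ) := F.biUnion (fun a => (A a).toFinset ∪ (B a).toFinset) ∪ R₀ with hL
  have hAL : ∀ a ∈ F, ∀ x ∈ A a, x ∈ L := fun a ha x hx => mem_union_left _ (mem_biUnion.2
    ⟨a, ha, mem_union_left _ (Multiset.mem_toFinset.2 hx)⟩)
  have hBL : ∀ a ∈ F, ∀ x ∈ B a, x ∈ L := fun a ha x hx => mem_union_left _ (mem_biUnion.2
    ⟨a, ha, mem_union_right _ (Multiset.mem_toFinset.2 hx)⟩)
  have hLR : ∀ x ∈ L, x ∈ R := by
    intro x hx
    rw [hL, mem_union, mem_biUnion] at hx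
    rcases hx with ⟨a, -, ha⟩ | hx
    · rw [mem_union, Multiset.mem_toFinset, Multiset.mem_toFinset] at ha
      rcases ha with ha | ha
      · exact hA a x ha
      · exact hB a x ha
    · exact hR₀ x hx
  refine ⟨L, n, hn0, hLR, fun S T u hV hsd hLn => ?_⟩
  have hsd' : ∀ p : ℕ, p.Prime → p ∉ S → ∀ r ∈ L, r.map (u p) = r.map fun k => (u p k)⁻¹ :=
    fun p hp hpS x hx => hsd p hp hpS x (hLR x hx)
  -- orbit sums in terms of the list
  have horb : ∀ a ∈ F, ∀ v : AddChar Λ ℂ, ∑ w : W, v (w • a) =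
      ∑ x ∈ L, (((B a).count x : ℝ) - ((A a).count x : ℝ) : ℂ) * tr x v := by
    intro a ha v
    have h1 := congrArg (fun M => tr M v) (hAB a)
    simp only [tr_add, tr_sum, tr_orb] at h1
    rw [← sum_count (hAL a ha), ← sum_count (hBL a ha)] at h1
    simp only [sub_mul, sum_sub_distrib]
    push_cast
    linear_combination h1
  -- relations with real coefficients
  have hreal : ∀ c : Λ → ℝ, (∀ v ∈ V, ∑ a ∈ F, (c a : ℂ) * ∑ w : W, v (w • a) = 0) →
      ∀ p : ℕ, p.Prime → p ∉ S → ∀ k : ℕ,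
        ∑ a ∈ F, (c a : ℂ) * ∑ w : W, (u p ^ (k + 1)) (w • a) = 0 := by
    intro c hc p hp hpS k
    set C : Multiset Λ → ℝ := fun x => ∑ a ∈ F, c a * (((B a).count x : ℝ) - ((A a).count x : ℝ))
      with hC
    have hCv : ∀ v : AddChar Λ ℂ, ∑ x ∈ L, (C x : ℂ) * tr x v =
        ∑ a ∈ F, (c a : ℂ) * ∑ w : W, v (w • a) := by
      intro v
      have h1 : ∀ a ∈ F, (c a : ℂ) * ∑ w : W, v (w • a) =
          ∑ x ∈ L, (c a : ℂ) * ((((B a).count x : ℝ) - ((A a).count x : ℝ) : ℂ) * tr x v) := by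
        intro a ha
        rw [horb a ha v, mul_sum]
      rw [sum_congr rfl h1, sum_comm]
      refine sum_congr rfl fun x _ => ?_
      simp only [hC]
      push_cast
      rw [sum_mul]
      refine sum_congr rfl fun a _ => ?_
      ring
    rw [← hCv]
    exact rel hV hsd' hLn C (fun v hv => by rw [hCv]; exact hc v hv) hp hpS k
  have hcx : ∀ c : Λ → ℂ, (∀ v ∈ V', ∑ a ∈ F, c a * ∑ w : W, v (w • a) = 0) →
      ∀ p : ℕ, p.Prime → p ∉ S → ∀ k : ℕ,
        ∑ a ∈ F, c a * ∑ w : W, (u p ^ (k + 1)) (w • a) = 0 := by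
    intro c hc p hp hpS k
    have h1 : ∀ v ∈ V, ∑ a ∈ F, (starRingEnd ℂ) (c a) * ∑ w : W, v (w • a) = 0 := by
      intro v hv
      have h2 := congrArg (starRingEnd ℂ) (hc (cj v) (mem_union_right _ (mem_image_of_mem _ hv)))
      rw [map_zero, map_sum] at h2
      rw [← h2]
      refine sum_congr rfl fun a _ => ?_
      rw [map_mul, map_sum]
      congr 1
      refine sum_congr rfl fun w _ => ?_
      rw [cj_apply, Complex.conj_conj]
    have h0 : ∀ v ∈ V, ∑ a ∈ F, c a * ∑ w : W, v (w • a) = 0 := fun v hv =>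
      hc v (mem_union_left _ hv)
    have hre : ∀ v ∈ V, ∑ a ∈ F, ((c a).re : ℂ) * ∑ w : W, v (w • a) = 0 := by
      intro v hv
      have e : ∀ a ∈ F, ((c a).re : ℂ) * ∑ w : W, v (w • a) = (1 / 2) * (c a * ∑ w : W, v (w • a)) +
          (1 / 2) * ((starRingEnd ℂ) (c a) * ∑ w : W, v (w • a)) := by
        intro a _
        rw [Complex.re_eq_add_conj]
        ring
      rw [sum_congr rfl e, sum_add_distrib, ← mul_sum, ← mul_sum, h0 v hv, h1 v hv]
      ring
    have him : ∀ v ∈ V, ∑ a ∈ F, ((c a).im : ℂ) * ∑ w : W, v (w • a) = 0 := by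
      intro v hv
      have e : ∀ a ∈ F, ((c a).im : ℂ) * ∑ w : W, v (w • a) =
          (1 / (2 * I)) * (c a * ∑ w : W, v (w • a)) -
          (1 / (2 * I)) * ((starRingEnd ℂ) (c a) * ∑ w : W, v (w • a)) := by
        intro a _
        rw [Complex.im_eq_sub_conj]
        ring
      rw [sum_congr rfl e, sum_sub_distrib, ← mul_sum, ← mul_sum, h0 v hv, h1 v hv]
      ring
    have g1 := hreal (fun a => (c a).re) hre p hp hpS k
    have g2 := hreal (fun a => (c a).im) him p hp hpS k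
    have e : ∀ a ∈ F, c a * ∑ w : W, (u p ^ (k + 1)) (w • a) =
        ((c a).re : ℂ) * ∑ w : W, (u p ^ (k + 1)) (w • a) +
        I * (((c a).im : ℂ) * ∑ w : W, (u p ^ (k + 1)) (w • a)) := by
      intro a _
      conv_lhs => rw [← Complex.re_add_im (c a)]
      ring
    rw [sum_congr rfl e, sum_add_distrib, ← mul_sum, g1, g2]
    ring
  have hpow : ∀ p : ℕ, p.Prime → p ∉ S → ∀ k : ℕ, u p ^ (k + 1) ∈ Q := by
    intro p hp hpS k
    obtain ⟨v, hv, w, hw⟩ := sep he (W := W) V' (u p ^ (k + 1)) fun c hc => hcx c hc p hp hpS k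
    rw [hw]
    exact mem_image.2 ⟨(v, w), mem_product.2 ⟨hv, mem_univ _⟩, rfl⟩
  have htor : ∀ p : ℕ, p.Prime → p ∉ S → u p ^ n = 1 := fun p hp hpS =>
    tors Q (u p) (hpow p hp hpS)
  have hUp : ∀ p : ℕ, p.Prime → p ∉ S → ∀ k : ℕ, u p ^ (k + 1) ∈ U := fun p hp hpS k =>
    mem_filter.2 ⟨hpow p hp hpS k, by rw [← pow_mul, mul_comm, pow_mul, htor p hp hpS, one_pow]⟩
  have hnorm : ∀ p : ℕ, p.Prime → p ∉ S → ∀ k, ‖u p k‖ = 1 := by
    intro p hp hpS k
    refine norm_eq_one_of_pow_eq_one (n := n) ?_ hn0.ne'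
    rw [← AddChar.pow_apply, htor p hp hpS, AddChar.one_apply]
  refine ⟨htor, fun M A' B' hA' hB' hM => ?_⟩
  choose! c hc using hint
  set C : Multiset Λ → ℤ := fun j => (B'.map fun x => c x j).sum - (A'.map fun x => c x j).sum with hC
  have hsumU : ∀ (B : Multiset (Multiset Λ)), (∀ x ∈ B, x ∈ R) → ∀ v ∈ U,
      (B.map fun x => tr x v).sum = ∑ j ∈ R₀, (((B.map fun x => c x j).sum : ℤ) : ℂ) * tr j v := by
    intro B hB v hv
    induction B using Multiset.induction with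
    | empty => simp
    | cons x B ih =>
      rw [Multiset.map_cons, Multiset.sum_cons, ih fun y hy => hB y (Multiset.mem_cons_of_mem hy),
        hc x (hB x (Multiset.mem_cons_self _ _)) v hv, ← sum_add_distrib]
      refine sum_congr rfl fun j _ => ?_
      rw [Multiset.map_cons, Multiset.sum_cons]
      push_cast
      ring
  have hMU : ∀ v ∈ U, tr M v = ∑ j ∈ R₀, (C j : ℂ) * tr j v := by
    intro v hv
    have h1 := congrArg (fun M => tr M v) hM
    simp only [tr_add, tr_sum] at h1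
    rw [hsumU A' hA' v hv, hsumU B' hB' v hv] at h1
    simp only [hC]
    push_cast at h1 ⊢
    simp only [sub_mul, sum_sub_distrib]
    linear_combination h1
  obtain ⟨N', D', hN⟩ := nice_sum (S := S) (R₀ := R₀) (E := fun j => EM u j) (fun j hj => by
    obtain ⟨N, D, h1, -⟩ := hLn j (mem_union_right _ hj)
    exact ⟨N, D, h1.toNice hnorm⟩) C
  refine ⟨N', D', ofNice (g := 0) (hN.congr fun p hp hpS s hs => ?_) hnorm⟩
  symm
  exact EM_rel hp (hnorm p hp hpS) (fun k => hMU _ (hUp p hp hpS k)) hs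

end Pool.Agent.U857.GS
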